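import Mathlib

/-!
# A counterexample to uniqueness for the coupled elliptic Dirichlet system

On the open unit disc `D` of the plane we exhibit two elliptic operators `L`, `M` in divergence
form (polynomial coefficients, strictly positive, formally selfadjoint), strictly positive smooth
functions `a`, `b` and a nonzero smooth solution `(u, v)` of
`L u + a v = 0`, `-b u + M v = 0` in `D`, `u = v = 0` on the boundary circle.

The example: with `r^2 = x^2 + y^2`,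
`u = (1 - r^2) y (4 - 6 x y + 4 x^2 - y^2)` and `v (x, y) = u (-y, x)`,
`L w = - div (A grad w)` with the positive definite matrix of quartic polynomials
`Axx, Axy, Ayy` below, and `M` is `L` rotated by a quarter turn.
-/

open MeasureTheory Set Metric
open scoped ContDiff

namespace Pool.Agent.Results.MP_f60174_an.DiscCounterexample

/-- Euclidean space `ℝⁿ`. -/
abbrev E (n : ℕ) : Type := EuclideanSpace ℝ (Fin n)

/-- The first order derivative `∂ᵢ f` of `f : ℝⁿ → ℝ` in the `i`-th coordinate direction. -/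
noncomputable def pd {n : ℕ} (i : Fin n) (f : E n → ℝ) (x : E n) : ℝ :=
  fderiv ℝ f x (EuclideanSpace.single i 1)

/-- The formally selfadjoint second order operator
`w ↦ - ∑ᵢ ∑ⱼ ∂ᵢ (aᵢⱼ ∂ⱼ w) + c w`. -/
noncomputable def ellOp {n : ℕ} (A : Fin n → Fin n → E n → ℝ) (c w : E n → ℝ) (x : E n) : ℝ :=
  -(∑ i, ∑ j, pd i (fun y => A i j y * pd j w y) x) + c x * w x

/-- `D` is a bounded domain of `ℝⁿ` whose boundary is smooth and connected. -/
structure IsSmoothDomain {n : ℕ} (D : Set (E n)) : Prop where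
  isOpen : IsOpen D
  isConnected : IsConnected D
  isBounded : Bornology.IsBounded D
  isConnected_boundary : IsConnected (frontier D)
  smooth_boundary : ∃ ρ : E n → ℝ, ContDiff ℝ ∞ ρ ∧ D = {x | ρ x < 0} ∧
    frontier D = {x | ρ x = 0} ∧ ∀ x, ρ x = 0 → fderiv ℝ ρ x ≠ 0

/-- The hypotheses on the operator `L w = - ∑ᵢ ∑ⱼ ∂ᵢ (aᵢⱼ ∂ⱼ w) + c w` on the domain `D`:
smooth real coefficients, `aᵢⱼ = aⱼᵢ`, uniform ellipticity, and strict positivity
`(L w, w) ≥ γ (w, w)` in `L²(D)` for all `w` of class `C²` vanishing on the boundary. -/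
structure IsAdmissibleOp {n : ℕ} (D : Set (E n)) (A : Fin n → Fin n → E n → ℝ)
    (c : E n → ℝ) : Prop where
  smooth_A : ∀ i j, ContDiff ℝ ∞ (A i j)
  smooth_c : ContDiff ℝ ∞ c
  symm : ∀ i j x, A i j x = A j i x
  elliptic : ∃ lam : ℝ, 0 < lam ∧ ∀ x ∈ closure D, ∀ ξ : Fin n → ℝ,
    lam * ∑ i, ξ i ^ 2 ≤ ∑ i, ∑ j, A i j x * ξ i * ξ j
  positive : ∃ γ : ℝ, 0 < γ ∧ ∀ w : E n → ℝ, ContDiff ℝ 2 w → (∀ x ∈ frontier D, w x = 0) →
    γ * ∫ x in D, w x ^ 2 ≤ ∫ x in D, ellOp A c w x * w x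

/-- `a` is smooth on (a neighbourhood of) the closure of `D` and strictly positive there. -/
def SmoothPos {n : ℕ} (D : Set (E n)) (a : E n → ℝ) : Prop :=
  (∃ O : Set (E n), IsOpen O ∧ closure D ⊆ O ∧ ContDiffOn ℝ ∞ a O) ∧ ∀ x ∈ closure D, 0 < a x

/-- `(u, v)` is a classical solution, smooth up to the boundary, of
`L u + a v = 0`, `-b u + M v = 0` in `D`, `u = v = 0` on the boundary, where
`L`, `M` are the operators with coefficients `A, c` and `B, d`. -/
structure IsSolution {n : ℕ} (D : Set (E n)) (A : Fin n → Fin n → E n → ℝ) (c : E n → ℝ)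
    (B : Fin n → Fin n → E n → ℝ) (d a b u v : E n → ℝ) : Prop where
  smooth_u : ContDiff ℝ ∞ u
  smooth_v : ContDiff ℝ ∞ v
  eq_u : ∀ x ∈ D, ellOp A c u x + a x * v x = 0
  eq_v : ∀ x ∈ D, -(b x * u x) + ellOp B d v x = 0
  boundary : ∀ x ∈ frontier D, u x = 0 ∧ v x = 0

abbrev Plane : Type := E 2

def dset : Set (ℝ × ℝ) := {p | p.1 ^ 2 + p.2 ^ 2 < 1}

lemma measurableSet_dset : MeasurableSet dset := by
  have : IsOpen dset := by
    have : dset = (fun p : ℝ × ℝ => p.1 ^ 2 + p.2 ^ 2) ⁻¹' Iio 1 := rfl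
    rw [this]
    exact isOpen_Iio.preimage (by fun_prop)
  exact this.measurableSet

lemma dset_subset : dset ⊆ Icc (-1 : ℝ) 1 ×ˢ Icc (-1 : ℝ) 1 := by
  intro p hp
  have hp' : p.1 ^ 2 + p.2 ^ 2 < 1 := hp
  refine ⟨⟨?_, ?_⟩, ⟨?_, ?_⟩⟩ <;> nlinarith [sq_nonneg p.1, sq_nonneg p.2]

lemma integrableOn_dset {f : ℝ × ℝ → ℝ} (hf : Continuous f) : IntegrableOn f dset := by
  refine IntegrableOn.mono_set ?_ dset_subset
  exact hf.continuousOn.integrableOn_compact (isCompact_Icc.prod isCompact_Icc)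

lemma slice_integral {g g' : ℝ → ℝ} {y : ℝ} (hg : ∀ t, HasDerivAt g (g' t) t) (hc : Continuous g')
    (h0 : ∀ t, t ^ 2 + y ^ 2 = 1 → g t = 0) :
    ∫ t in {t : ℝ | t ^ 2 + y ^ 2 < 1}, g' t = 0 := by
  by_cases hy : y ^ 2 < 1
  · set s := Real.sqrt (1 - y ^ 2) with hs
    have hs0 : 0 ≤ s := Real.sqrt_nonneg _
    have hs2 : s ^ 2 = 1 - y ^ 2 := Real.sq_sqrt (by linarith)
    have hset : {t : ℝ | t ^ 2 + y ^ 2 < 1} = Ioo (-s) s := by
      ext t
      simp only [mem_ofPred_eq, mem_Ioo]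
      constructor
      · intro h
        have : t ^ 2 < s ^ 2 := by linarith
        exact abs_lt.mp (abs_lt_of_sq_lt_sq this hs0)
      · rintro ⟨h1, h2⟩
        have : t ^ 2 < s ^ 2 := by nlinarith
        linarith
    rw [hset, ← integral_Ioc_eq_integral_Ioo, ← intervalIntegral.integral_of_le (by linarith),
      intervalIntegral.integral_eq_sub_of_hasDerivAt (fun t _ => hg t) (hc.intervalIntegrable _ _)]
    rw [h0 s (by linarith), h0 (-s) (by nlinarith)]
    simp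
  · have hset : {t : ℝ | t ^ 2 + y ^ 2 < 1} = ∅ := by
      ext t
      simp only [mem_ofPred_eq, mem_empty_iff_false, iff_false, not_lt]
      nlinarith [sq_nonneg t]
    rw [hset]; simp

lemma integral_d1 {g g' : ℝ × ℝ → ℝ} (hg : ∀ p : ℝ × ℝ, HasDerivAt (fun t => g (t, p.2)) (g' p) p.1)
    (hc : Continuous g') (h0 : ∀ p : ℝ × ℝ, p.1 ^ 2 + p.2 ^ 2 = 1 → g p = 0) :
    ∫ p in dset, g' p = 0 := by
  rw [← integral_indicator measurableSet_dset, Measure.volume_eq_prod, integral_prod_symm]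
  · have : ∀ y : ℝ, ∫ x : ℝ, dset.indicator g' (x, y) = 0 := by
      intro y
      have h1 : (fun x : ℝ => dset.indicator g' (x, y)) =
          {t : ℝ | t ^ 2 + y ^ 2 < 1}.indicator (fun t => g' (t, y)) := by
        funext x
        by_cases hx : x ^ 2 + y ^ 2 < 1
        · rw [indicator_of_mem (show (x, y) ∈ dset from hx),
            indicator_of_mem (show x ∈ {t : ℝ | t ^ 2 + y ^ 2 < 1} from hx)]
        · rw [indicator_of_notMem (show (x, y) ∉ dset from hx),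
            indicator_of_notMem (show x ∉ {t : ℝ | t ^ 2 + y ^ 2 < 1} from hx)]
      have hms : MeasurableSet {t : ℝ | t ^ 2 + y ^ 2 < 1} := by
        have : {t : ℝ | t ^ 2 + y ^ 2 < 1} = (fun t : ℝ => t ^ 2 + y ^ 2) ⁻¹' Iio 1 := rfl
        rw [this]
        exact (isOpen_Iio.preimage (by fun_prop)).measurableSet
      rw [h1, integral_indicator hms]
      exact slice_integral (g := fun t => g (t, y)) (fun t => hg (t, y)) (by fun_prop)
        (fun t ht => h0 (t, y) ht)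
    simp [this]
  · rw [← Measure.volume_eq_prod]
    exact (integrable_indicator_iff measurableSet_dset).2 (integrableOn_dset hc)

lemma integral_d2 {g g' : ℝ × ℝ → ℝ} (hg : ∀ p : ℝ × ℝ, HasDerivAt (fun t => g (p.1, t)) (g' p) p.2)
    (hc : Continuous g') (h0 : ∀ p : ℝ × ℝ, p.1 ^ 2 + p.2 ^ 2 = 1 → g p = 0) :
    ∫ p in dset, g' p = 0 := by
  rw [← integral_indicator measurableSet_dset, Measure.volume_eq_prod, integral_prod]
  · have : ∀ x : ℝ, ∫ y : ℝ, dset.indicator g' (x, y) = 0 := by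
      intro x
      have h1 : (fun y : ℝ => dset.indicator g' (x, y)) =
          {t : ℝ | t ^ 2 + x ^ 2 < 1}.indicator (fun t => g' (x, t)) := by
        funext y
        by_cases hx : x ^ 2 + y ^ 2 < 1
        · rw [indicator_of_mem (show (x, y) ∈ dset from hx),
            indicator_of_mem (show y ∈ {t : ℝ | t ^ 2 + x ^ 2 < 1} from by
              rw [add_comm] at hx; exact hx)]
        · rw [indicator_of_notMem (show (x, y) ∉ dset from hx),
            indicator_of_notMem (show y ∉ {t : ℝ | t ^ 2 + x ^ 2 < 1} from by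
              rw [add_comm] at hx; exact hx)]
      have hms : MeasurableSet {t : ℝ | t ^ 2 + x ^ 2 < 1} := by
        have : {t : ℝ | t ^ 2 + x ^ 2 < 1} = (fun t : ℝ => t ^ 2 + x ^ 2) ⁻¹' Iio 1 := rfl
        rw [this]
        exact (isOpen_Iio.preimage (by fun_prop)).measurableSet
      rw [h1, integral_indicator hms]
      exact slice_integral (g := fun t => g (x, t)) (fun t => hg (x, t)) (by fun_prop)
        (fun t ht => h0 (x, t) (by simpa [add_comm] using ht))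
    simp [this]
  · rw [← Measure.volume_eq_prod]
    exact (integrable_indicator_iff measurableSet_dset).2 (integrableOn_dset hc)

/-- transfer -/
lemma plane_norm (x : Plane) : ‖x‖ ^ 2 = x 0 ^ 2 + x 1 ^ 2 := by
  rw [EuclideanSpace.norm_sq_eq]; simp [Fin.sum_univ_two]

lemma mem_ball_iff (x : Plane) : x ∈ ball (0 : Plane) 1 ↔ x 0 ^ 2 + x 1 ^ 2 < 1 := by
  rw [← plane_norm, mem_ball_zero_iff]
  constructor
  · intro h; nlinarith [norm_nonneg x]
  · intro h; nlinarith [norm_nonneg x]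

lemma integral_ball_eq (f : Plane → ℝ) :
    ∫ x in ball (0 : Plane) 1, f x = ∫ p in dset, f (!₂[p.1, p.2]) := by
  have h1 := (EuclideanSpace.volume_preserving_symm_measurableEquiv_toLp (Fin 2))
  have h2 := h1.trans (volume_preserving_finTwoArrow ℝ)
  have h3 := MeasurePreserving.setIntegral_preimage_emb h2.symm
    (MeasurableEquiv.measurableEmbedding _) f (ball (0 : Plane) 1)
  rw [← h3]
  have hset : (⇑((MeasurableEquiv.toLp 2 (Fin 2 → ℝ)).symm.trans MeasurableEquiv.finTwoArrow).symm ⁻¹' ball (0 : Plane) 1) = dset := by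
    ext p
    simp only [mem_preimage, mem_ball_iff]
    rfl
  rw [hset]
  rfl

lemma pd_line0 {f : Plane → ℝ} {x : Plane} (hf : DifferentiableAt ℝ f x) :
    HasDerivAt (fun t => f (!₂[t, x 1])) (pd 0 f x) (x 0) := by
  have h1 : HasFDerivAt f (fderiv ℝ f x) x := hf.hasFDerivAt
  have h2 : HasDerivAt (fun t : ℝ => (!₂[t, x 1] : Plane)) (EuclideanSpace.single 0 1) (x 0) := by
    have h3 : (fun t : ℝ => (!₂[t, x 1] : Plane)) =
        fun t : ℝ => (!₂[0, x 1] : Plane) + t • (EuclideanSpace.single (0 : Fin 2) (1 : ℝ)) := by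
      funext t; ext i; fin_cases i <;> simp
    rw [h3]
    simpa using ((hasDerivAt_id (x 0)).smul_const (EuclideanSpace.single (0 : Fin 2) (1 : ℝ))).const_add
      (!₂[0, x 1] : Plane)
  have hx : (!₂[x 0, x 1] : Plane) = x := by ext i; fin_cases i <;> simp
  have h4 : HasFDerivAt f (fderiv ℝ f x) (!₂[x 0, x 1] : Plane) := by rw [hx]; exact h1
  exact h4.comp_hasDerivAt (x 0) h2

lemma pd_line1 {f : Plane → ℝ} {x : Plane} (hf : DifferentiableAt ℝ f x) :
    HasDerivAt (fun t => f (!₂[x 0, t])) (pd 1 f x) (x 1) := by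
  have h1 : HasFDerivAt f (fderiv ℝ f x) x := hf.hasFDerivAt
  have h2 : HasDerivAt (fun t : ℝ => (!₂[x 0, t] : Plane)) (EuclideanSpace.single 1 1) (x 1) := by
    have h3 : (fun t : ℝ => (!₂[x 0, t] : Plane)) =
        fun t : ℝ => (!₂[x 0, 0] : Plane) + t • (EuclideanSpace.single (1 : Fin 2) (1 : ℝ)) := by
      funext t; ext i; fin_cases i <;> simp
    rw [h3]
    simpa using ((hasDerivAt_id (x 1)).smul_const (EuclideanSpace.single (1 : Fin 2) (1 : ℝ))).const_add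
      (!₂[x 0, 0] : Plane)
  have hx : (!₂[x 0, x 1] : Plane) = x := by ext i; fin_cases i <;> simp
  have h4 : HasFDerivAt f (fderiv ℝ f x) (!₂[x 0, x 1] : Plane) := by rw [hx]; exact h1
  exact h4.comp_hasDerivAt (x 1) h2

lemma continuous_pd {f : Plane → ℝ} (hf : ContDiff ℝ 1 f) (i : Fin 2) : Continuous (pd i f) := by
  have := hf.continuous_fderiv (by norm_num)
  exact this.clm_apply continuous_const

lemma contDiff_pd {f : Plane → ℝ} {m n : WithTop ℕ∞} (hf : ContDiff ℝ n f) (h : m + 1 ≤ n) (i : Fin 2) :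
    ContDiff ℝ m (pd i f) :=
  (hf.fderiv_right h).clm_apply contDiff_const

lemma integral_pd {G : Plane → ℝ} (hG : ContDiff ℝ 1 G) (h0 : ∀ x ∈ sphere (0 : Plane) 1, G x = 0)
    (i : Fin 2) : ∫ x in ball (0 : Plane) 1, pd i G x = 0 := by
  have hd : Differentiable ℝ G := hG.differentiable (by norm_num)
  have hsph : ∀ p : ℝ × ℝ, p.1 ^ 2 + p.2 ^ 2 = 1 → G (!₂[p.1, p.2]) = 0 := by
    intro p hp
    apply h0
    have : ‖(!₂[p.1, p.2] : Plane)‖ ^ 2 = 1 := by rw [plane_norm]; simpa using hp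
    rw [mem_sphere_zero_iff_norm]
    nlinarith [norm_nonneg (!₂[p.1, p.2] : Plane)]
  have hcont : Continuous (fun p : ℝ × ℝ => (!₂[p.1, p.2] : Plane)) := by fun_prop
  rw [integral_ball_eq]
  fin_cases i
  · refine integral_d1 (g := fun p => G (!₂[p.1, p.2])) (fun p => ?_) ((continuous_pd hG 0).comp hcont) hsph
    simpa using pd_line0 (f := G) (x := !₂[p.1, p.2]) (hd _)
  · refine integral_d2 (g := fun p => G (!₂[p.1, p.2])) (fun p => ?_) ((continuous_pd hG 1).comp hcont) hsph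
    simpa using pd_line1 (f := G) (x := !₂[p.1, p.2]) (hd _)

lemma integrableOn_ball {f : Plane → ℝ} (hf : Continuous f) : IntegrableOn f (ball (0 : Plane) 1) :=
  (hf.continuousOn.integrableOn_compact (isCompact_closedBall (0 : Plane) 1)).mono_set ball_subset_closedBall

lemma pd_mul {f g : Plane → ℝ} {x : Plane} (hf : DifferentiableAt ℝ f x) (hg : DifferentiableAt ℝ g x)
    (i : Fin 2) : pd i (fun y => f y * g y) x = pd i f x * g x + f x * pd i g x := by
  unfold pd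
  rw [fderiv_fun_mul hf hg]
  simp
  ring

lemma pd_add {f g : Plane → ℝ} {x : Plane} (hf : DifferentiableAt ℝ f x) (hg : DifferentiableAt ℝ g x)
    (i : Fin 2) : pd i (fun y => f y + g y) x = pd i f x + pd i g x := by
  unfold pd
  rw [fderiv_fun_add hf hg]
  simp

lemma pd_coord0 (x : Plane) : pd 0 (fun y : Plane => y 0) x = 1 := by
  have h := pd_line0 (f := fun y : Plane => y 0) (x := x) (by fun_prop)
  have h2 : HasDerivAt (fun t : ℝ => t) (pd 0 (fun y : Plane => y 0) x) (x 0) := by simpa using h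
  exact h2.unique (hasDerivAt_id' _)

/-- Poincaré inequality on the disc. -/
lemma poincare {w : Plane → ℝ} (hw : ContDiff ℝ 2 w) (h0 : ∀ x ∈ sphere (0 : Plane) 1, w x = 0) :
    ∫ x in ball (0 : Plane) 1, w x ^ 2 ≤ 4 * ∫ x in ball (0 : Plane) 1, pd 0 w x ^ 2 := by
  have hd : Differentiable ℝ w := hw.differentiable (by norm_num)
  have hG : ContDiff ℝ 1 (fun x : Plane => x 0 * (w x * w x)) := by
    have := hw.of_le (show (1 : WithTop ℕ∞) ≤ 2 by norm_num)
    fun_prop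
  have key := integral_pd hG (fun x hx => by simp [h0 x hx]) 0
  have hpd : ∀ x : Plane, pd 0 (fun x : Plane => x 0 * (w x * w x)) x = w x ^ 2 + 2 * (x 0 * w x * pd 0 w x) := by
    intro x
    rw [pd_mul (by fun_prop) (by fun_prop), pd_mul (hd x) (hd x), pd_coord0]
    ring
  simp only [hpd] at key
  have hc1 : Continuous (fun x : Plane => w x ^ 2) := by fun_prop
  have hc2 : Continuous (pd 0 w) := continuous_pd (hw.of_le (by norm_num)) 0
  have hc3 : Continuous (fun x : Plane => w x ^ 2 + 2 * (x 0 * w x * pd 0 w x)) := by fun_prop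
  have hle : ∫ x in ball (0 : Plane) 1, ((1/2) * w x ^ 2 - 2 * pd 0 w x ^ 2) ≤
      ∫ x in ball (0 : Plane) 1, (w x ^ 2 + 2 * (x 0 * w x * pd 0 w x)) := by
    refine setIntegral_mono_on (integrableOn_ball (by fun_prop)) (integrableOn_ball hc3) measurableSet_ball ?_
    intro x hx
    rw [mem_ball_iff] at hx
    have hx0 : x 0 ^ 2 ≤ 1 := by nlinarith [sq_nonneg (x 1)]
    have : 0 ≤ (w x + 2 * (x 0 * pd 0 w x)) ^ 2 := sq_nonneg _
    nlinarith [mul_nonneg (sq_nonneg (pd 0 w x)) (sub_nonneg.2 hx0)]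
  rw [key, integral_sub (integrableOn_ball (by fun_prop)) (integrableOn_ball (by fun_prop)),
    integral_const_mul, integral_const_mul] at hle
  linarith

noncomputable def Axx (x y : ℝ) : ℝ :=
  66 - 69 * x ^ 2 - 108 * x * y - 69 * y ^ 2 + 21 * x ^ 4 + 58 * x ^ 3 * y + 44 * x ^ 2 * y ^ 2 + 66 * x * y ^ 3 + 96 * y ^ 4

noncomputable def Axy (x y : ℝ) : ℝ :=
  -8 + 10 * x ^ 2 + 6 * y ^ 2 - 2 * x ^ 4 - 4 * x ^ 3 * y + 41 * x ^ 2 * y ^ 2 - 100 * x * y ^ 3 + 5 * y ^ 4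

noncomputable def Ayy (x y : ℝ) : ℝ :=
  4 - 9 * x ^ 2 + 12 * x * y - 9 * y ^ 2 + 9 * x ^ 4 - 38 * x ^ 3 * y + 108 * x ^ 2 * y ^ 2 - 18 * x * y ^ 3 + 8 * y ^ 4

noncomputable def Bxx (x y : ℝ) : ℝ :=
  4 - 9 * x ^ 2 - 12 * x * y - 9 * y ^ 2 + 8 * x ^ 4 + 18 * x ^ 3 * y + 108 * x ^ 2 * y ^ 2 + 38 * x * y ^ 3 + 9 * y ^ 4

noncomputable def Bxy (x y : ℝ) : ℝ :=
  8 - 6 * x ^ 2 - 10 * y ^ 2 - 5 * x ^ 4 - 100 * x ^ 3 * y - 41 * x ^ 2 * y ^ 2 - 4 * x * y ^ 3 + 2 * y ^ 4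

noncomputable def Byy (x y : ℝ) : ℝ :=
  66 - 69 * x ^ 2 + 108 * x * y - 69 * y ^ 2 + 96 * x ^ 4 - 66 * x ^ 3 * y + 44 * x ^ 2 * y ^ 2 - 58 * x * y ^ 3 + 21 * y ^ 4

noncomputable def U (x y : ℝ) : ℝ :=
  4 * y - 6 * x * y ^ 2 - 5 * y ^ 3 - 4 * x ^ 4 * y + 6 * x ^ 3 * y ^ 2 - 3 * x ^ 2 * y ^ 3 + 6 * x * y ^ 4 + y ^ 5

noncomputable def V (x y : ℝ) : ℝ :=
  4 * x - 5 * x ^ 3 + 6 * x ^ 2 * y + x ^ 5 - 6 * x ^ 4 * y - 3 * x ^ 3 * y ^ 2 - 6 * x ^ 2 * y ^ 3 - 4 * x * y ^ 4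

noncomputable def psi (x y : ℝ) : ℝ :=
  80 + 308 * x ^ 2 - 3498 * x * y + 3456 * y ^ 2 - 356 * x ^ 4 + 4290 * x ^ 3 * y + 1190 * x ^ 2 * y ^ 2 - 10812 * x * y ^ 3 + 4984 * y ^ 4

noncomputable def U_x (x y : ℝ) : ℝ :=
  -6 * y ^ 2 - 16 * x ^ 3 * y + 18 * x ^ 2 * y ^ 2 - 6 * x * y ^ 3 + 6 * y ^ 4

noncomputable def U_y (x y : ℝ) : ℝ :=
  4 - 12 * x * y - 15 * y ^ 2 - 4 * x ^ 4 + 12 * x ^ 3 * y - 9 * x ^ 2 * y ^ 2 + 24 * x * y ^ 3 + 5 * y ^ 4

noncomputable def U_x_x (x y : ℝ) : ℝ :=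
  -48 * x ^ 2 * y + 36 * x * y ^ 2 - 6 * y ^ 3

noncomputable def U_x_y (x y : ℝ) : ℝ :=
  -12 * y - 16 * x ^ 3 + 36 * x ^ 2 * y - 18 * x * y ^ 2 + 24 * y ^ 3

noncomputable def U_y_x (x y : ℝ) : ℝ :=
  -12 * y - 16 * x ^ 3 + 36 * x ^ 2 * y - 18 * x * y ^ 2 + 24 * y ^ 3

noncomputable def U_y_y (x y : ℝ) : ℝ :=
  -12 * x - 30 * y + 12 * x ^ 3 - 18 * x ^ 2 * y + 72 * x * y ^ 2 + 20 * y ^ 3

noncomputable def V_x (x y : ℝ) : ℝ :=
  4 - 15 * x ^ 2 + 12 * x * y + 5 * x ^ 4 - 24 * x ^ 3 * y - 9 * x ^ 2 * y ^ 2 - 12 * x * y ^ 3 - 4 * y ^ 4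

noncomputable def V_y (x y : ℝ) : ℝ :=
  6 * x ^ 2 - 6 * x ^ 4 - 6 * x ^ 3 * y - 18 * x ^ 2 * y ^ 2 - 16 * x * y ^ 3

noncomputable def V_x_x (x y : ℝ) : ℝ :=
  -30 * x + 12 * y + 20 * x ^ 3 - 72 * x ^ 2 * y - 18 * x * y ^ 2 - 12 * y ^ 3

noncomputable def V_x_y (x y : ℝ) : ℝ :=
  12 * x - 24 * x ^ 3 - 18 * x ^ 2 * y - 36 * x * y ^ 2 - 16 * y ^ 3

noncomputable def V_y_x (x y : ℝ) : ℝ :=
  12 * x - 24 * x ^ 3 - 18 * x ^ 2 * y - 36 * x * y ^ 2 - 16 * y ^ 3

noncomputable def V_y_y (x y : ℝ) : ℝ :=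
  -6 * x ^ 3 - 36 * x ^ 2 * y - 48 * x * y ^ 2

noncomputable def Axx_x (x y : ℝ) : ℝ :=
  -138 * x - 108 * y + 84 * x ^ 3 + 174 * x ^ 2 * y + 88 * x * y ^ 2 + 66 * y ^ 3

noncomputable def Axy_x (x y : ℝ) : ℝ :=
  20 * x - 8 * x ^ 3 - 12 * x ^ 2 * y + 82 * x * y ^ 2 - 100 * y ^ 3

noncomputable def Axy_y (x y : ℝ) : ℝ :=
  12 * y - 4 * x ^ 3 + 82 * x ^ 2 * y - 300 * x * y ^ 2 + 20 * y ^ 3

noncomputable def Ayy_y (x y : ℝ) : ℝ :=
  12 * x - 18 * y - 38 * x ^ 3 + 216 * x ^ 2 * y - 54 * x * y ^ 2 + 32 * y ^ 3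

noncomputable def Bxx_x (x y : ℝ) : ℝ :=
  -18 * x - 12 * y + 32 * x ^ 3 + 54 * x ^ 2 * y + 216 * x * y ^ 2 + 38 * y ^ 3

noncomputable def Bxy_x (x y : ℝ) : ℝ :=
  -12 * x - 20 * x ^ 3 - 300 * x ^ 2 * y - 82 * x * y ^ 2 - 4 * y ^ 3

noncomputable def Bxy_y (x y : ℝ) : ℝ :=
  -20 * y - 100 * x ^ 3 - 82 * x ^ 2 * y - 12 * x * y ^ 2 + 8 * y ^ 3

noncomputable def Byy_y (x y : ℝ) : ℝ :=
  108 * x - 138 * y - 66 * x ^ 3 + 88 * x ^ 2 * y - 174 * x * y ^ 2 + 84 * y ^ 3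

lemma quint (c0 c1 c2 c3 c4 c5 x : ℝ) :
    HasDerivAt (fun t : ℝ => c0 + c1 * t + c2 * t ^ 2 + c3 * t ^ 3 + c4 * t ^ 4 + c5 * t ^ 5)
      (c1 + 2 * c2 * x + 3 * c3 * x ^ 2 + 4 * c4 * x ^ 3 + 5 * c5 * x ^ 4) x := by
  have h1 : HasDerivAt (fun t : ℝ => c1 * t) (c1 * 1) x := (hasDerivAt_id' x).const_mul c1
  have h2 := (hasDerivAt_pow 2 x).const_mul c2
  have h3 := (hasDerivAt_pow 3 x).const_mul c3
  have h4 := (hasDerivAt_pow 4 x).const_mul c4
  have h5 := (hasDerivAt_pow 5 x).const_mul c5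
  have h := ((((h1.const_add c0).add h2).add h3).add h4).add h5
  refine h.congr_deriv ?_
  push_cast
  ring

lemma U_dx (x y : ℝ) : HasDerivAt (fun t => U t y) (U_x x y) x := by
  have h := quint (4 * y - 5 * y ^ 3 + y ^ 5) (-6 * y ^ 2 + 6 * y ^ 4) (-3 * y ^ 3) (6 * y ^ 2) (-4 * y) (0) x
  convert h using 1
  · funext t; simp only [U]; ring
  · simp only [U_x]; ring

lemma U_dy (x y : ℝ) : HasDerivAt (fun t => U x t) (U_y x y) y := by
  have h := quint (0) (4 - 4 * x ^ 4) (-6 * x + 6 * x ^ 3) (-5 - 3 * x ^ 2) (6 * x) (1) y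
  convert h using 1
  · funext t; simp only [U]; ring
  · simp only [U_y]; ring

lemma U_x_dx (x y : ℝ) : HasDerivAt (fun t => U_x t y) (U_x_x x y) x := by
  have h := quint (-6 * y ^ 2 + 6 * y ^ 4) (-6 * y ^ 3) (18 * y ^ 2) (-16 * y) (0) (0) x
  convert h using 1
  · funext t; simp only [U_x]; ring
  · simp only [U_x_x]; ring

lemma U_x_dy (x y : ℝ) : HasDerivAt (fun t => U_x x t) (U_x_y x y) y := by
  have h := quint (0) (-16 * x ^ 3) (-6 + 18 * x ^ 2) (-6 * x) (6) (0) y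
  convert h using 1
  · funext t; simp only [U_x]; ring
  · simp only [U_x_y]; ring

lemma U_y_dx (x y : ℝ) : HasDerivAt (fun t => U_y t y) (U_y_x x y) x := by
  have h := quint (4 - 15 * y ^ 2 + 5 * y ^ 4) (-12 * y + 24 * y ^ 3) (-9 * y ^ 2) (12 * y) (-4) (0) x
  convert h using 1
  · funext t; simp only [U_y]; ring
  · simp only [U_y_x]; ring

lemma U_y_dy (x y : ℝ) : HasDerivAt (fun t => U_y x t) (U_y_y x y) y := by
  have h := quint (4 - 4 * x ^ 4) (-12 * x + 12 * x ^ 3) (-15 - 9 * x ^ 2) (24 * x) (5) (0) y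
  convert h using 1
  · funext t; simp only [U_y]; ring
  · simp only [U_y_y]; ring

lemma V_dx (x y : ℝ) : HasDerivAt (fun t => V t y) (V_x x y) x := by
  have h := quint (0) (4 - 4 * y ^ 4) (6 * y - 6 * y ^ 3) (-5 - 3 * y ^ 2) (-6 * y) (1) x
  convert h using 1
  · funext t; simp only [V]; ring
  · simp only [V_x]; ring

lemma V_dy (x y : ℝ) : HasDerivAt (fun t => V x t) (V_y x y) y := by
  have h := quint (4 * x - 5 * x ^ 3 + x ^ 5) (6 * x ^ 2 - 6 * x ^ 4) (-3 * x ^ 3) (-6 * x ^ 2) (-4 * x) (0) y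
  convert h using 1
  · funext t; simp only [V]; ring
  · simp only [V_y]; ring

lemma V_x_dx (x y : ℝ) : HasDerivAt (fun t => V_x t y) (V_x_x x y) x := by
  have h := quint (4 - 4 * y ^ 4) (12 * y - 12 * y ^ 3) (-15 - 9 * y ^ 2) (-24 * y) (5) (0) x
  convert h using 1
  · funext t; simp only [V_x]; ring
  · simp only [V_x_x]; ring

lemma V_x_dy (x y : ℝ) : HasDerivAt (fun t => V_x x t) (V_x_y x y) y := by
  have h := quint (4 - 15 * x ^ 2 + 5 * x ^ 4) (12 * x - 24 * x ^ 3) (-9 * x ^ 2) (-12 * x) (-4) (0) y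
  convert h using 1
  · funext t; simp only [V_x]; ring
  · simp only [V_x_y]; ring

lemma V_y_dx (x y : ℝ) : HasDerivAt (fun t => V_y t y) (V_y_x x y) x := by
  have h := quint (0) (-16 * y ^ 3) (6 - 18 * y ^ 2) (-6 * y) (-6) (0) x
  convert h using 1
  · funext t; simp only [V_y]; ring
  · simp only [V_y_x]; ring

lemma V_y_dy (x y : ℝ) : HasDerivAt (fun t => V_y x t) (V_y_y x y) y := by
  have h := quint (6 * x ^ 2 - 6 * x ^ 4) (-6 * x ^ 3) (-18 * x ^ 2) (-16 * x) (0) (0) y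
  convert h using 1
  · funext t; simp only [V_y]; ring
  · simp only [V_y_y]; ring

lemma Axx_dx (x y : ℝ) : HasDerivAt (fun t => Axx t y) (Axx_x x y) x := by
  have h := quint (66 - 69 * y ^ 2 + 96 * y ^ 4) (-108 * y + 66 * y ^ 3) (-69 + 44 * y ^ 2) (58 * y) (21) (0) x
  convert h using 1
  · funext t; simp only [Axx]; ring
  · simp only [Axx_x]; ring

lemma Axy_dx (x y : ℝ) : HasDerivAt (fun t => Axy t y) (Axy_x x y) x := by
  have h := quint (-8 + 6 * y ^ 2 + 5 * y ^ 4) (-100 * y ^ 3) (10 + 41 * y ^ 2) (-4 * y) (-2) (0) x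
  convert h using 1
  · funext t; simp only [Axy]; ring
  · simp only [Axy_x]; ring

lemma Axy_dy (x y : ℝ) : HasDerivAt (fun t => Axy x t) (Axy_y x y) y := by
  have h := quint (-8 + 10 * x ^ 2 - 2 * x ^ 4) (-4 * x ^ 3) (6 + 41 * x ^ 2) (-100 * x) (5) (0) y
  convert h using 1
  · funext t; simp only [Axy]; ring
  · simp only [Axy_y]; ring

lemma Ayy_dy (x y : ℝ) : HasDerivAt (fun t => Ayy x t) (Ayy_y x y) y := by
  have h := quint (4 - 9 * x ^ 2 + 9 * x ^ 4) (12 * x - 38 * x ^ 3) (-9 + 108 * x ^ 2) (-18 * x) (8) (0) y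
  convert h using 1
  · funext t; simp only [Ayy]; ring
  · simp only [Ayy_y]; ring

lemma Bxx_dx (x y : ℝ) : HasDerivAt (fun t => Bxx t y) (Bxx_x x y) x := by
  have h := quint (4 - 9 * y ^ 2 + 9 * y ^ 4) (-12 * y + 38 * y ^ 3) (-9 + 108 * y ^ 2) (18 * y) (8) (0) x
  convert h using 1
  · funext t; simp only [Bxx]; ring
  · simp only [Bxx_x]; ring

lemma Bxy_dx (x y : ℝ) : HasDerivAt (fun t => Bxy t y) (Bxy_x x y) x := by
  have h := quint (8 - 10 * y ^ 2 + 2 * y ^ 4) (-4 * y ^ 3) (-6 - 41 * y ^ 2) (-100 * y) (-5) (0) x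
  convert h using 1
  · funext t; simp only [Bxy]; ring
  · simp only [Bxy_x]; ring

lemma Bxy_dy (x y : ℝ) : HasDerivAt (fun t => Bxy x t) (Bxy_y x y) y := by
  have h := quint (8 - 6 * x ^ 2 - 5 * x ^ 4) (-100 * x ^ 3) (-10 - 41 * x ^ 2) (-4 * x) (2) (0) y
  convert h using 1
  · funext t; simp only [Bxy]; ring
  · simp only [Bxy_y]; ring

lemma Byy_dy (x y : ℝ) : HasDerivAt (fun t => Byy x t) (Byy_y x y) y := by
  have h := quint (66 - 69 * x ^ 2 + 96 * x ^ 4) (108 * x - 66 * x ^ 3) (-69 + 44 * x ^ 2) (-58 * x) (21) (0) y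
  convert h using 1
  · funext t; simp only [Byy]; ring
  · simp only [Byy_y]; ring

lemma A_pos {x y : ℝ} (h : x ^ 2 + y ^ 2 ≤ 1) (s t : ℝ) :
    (1 / 10) * (s ^ 2 + t ^ 2) ≤ Axx x y * s ^ 2 + 2 * Axy x y * s * t + Ayy x y * t ^ 2 := by
  have hr : 0 ≤ 1 - x ^ 2 - y ^ 2 := by linarith
  have key : Axx x y * s ^ 2 + 2 * Axy x y * s * t + Ayy x y * t ^ 2 - (1 / 10) * (s ^ 2 + t ^ 2) =
      (627/10)*(s + (-4/33)*t + (-44/57)*x^2*s + (8/57)*x^2*t + (-64/209)*x*y*s + (-48/209)*x*y*t + (-52/57)*y^2*s + (94/627)*y^2*t)^2 + (851/330)*(t + (-880/851)*x^2*s + (-1397/851)*x^2*t + (2268/851)*x*y*s + (1536/851)*x*y*t + (-1760/851)*y^2*s + (-1373/851)*y^2*t)^2 + (895848/80845)*(x^2*s + (-26741/149308)*x^2*t + (-126463/111981)*x*y*s + (767815/895848)*x*y*t + (-309083/298616)*y^2*s + (190289/895848)*y^2*t)^2 + (347148/186635)*(x^2*t + (-153307/115716)*x*y*s + (-6000001/1388592)*x*y*t + (631963/154288)*y^2*s + (117509/462864)*y^2*t)^2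 + (371071/115716)*(x*y*s + (14958043/7421420)*x*y*t + (-3221997/1484284)*y^2*s + (-1271333/7421420)*y^2*t)^2 + (18032175557/667927800)*(x*y*t + (-15582988395/18032175557)*y^2*s + (934241673/18032175557)*y^2*t)^2 + (129618200874/90160877785)*(y^2*s + (-10007568215/129618200874)*y^2*t)^2 + (442681986481/648091004370)*(y^2*t)^2 + (1 - x^2 - y^2)*((16/5)*(s + (-1/8)*t)^2 + (7/20)*(t)^2) + (4/5)*(x*s + (-5/4)*y*s + (-1/4)*y*t)^2 + (3/5)*(x*t + (-1/3)*y*s)^2 + (17/60)*(y*s + (-3/17)*y*t)^2 + (29/85)*(y*t)^2 + (1 - x^2 - y^2)*((151/5)*(x*s + (-12/151)*x*t + (-169/151)*y*s + (18/151)*y*t)^2 + (913/755)*(x*t + (-518/913)*y*s + (-86/913)*y*t)^2 + (40088/4565)*(y*s + (-3733/20044)*y*t)^2 + (42871/50110)*(y*t)^2) := by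
    simp only [Axx, Axy, Ayy]
    ring
  have : 0 ≤ Axx x y * s ^ 2 + 2 * Axy x y * s * t + Ayy x y * t ^ 2 - (1 / 10) * (s ^ 2 + t ^ 2) := by
    rw [key]
    positivity
  linarith

lemma psi_pos {x y : ℝ} (h : x ^ 2 + y ^ 2 ≤ 1) : 1 / 20 ≤ psi x y := by
  have hr : 0 ≤ 1 - x ^ 2 - y ^ 2 := by linarith
  have key : psi x y - 1 / 20 =
      (799/10)*(1 + (-2527/1598)*x^2 + (-6904/799)*x*y + (29145/3196)*y^2)^2 + (16595/6392)*(x^2 + (-32446/82975)*x*y + (-419483/165950)*y^2)^2 + (37543702/414875)*(x*y + (-553982841/300349616)*y^2)^2 + (67424359441/12013984640)*(y^2)^2 + (1 - x^2 - y^2)*((1/20)*(1)^2) + (47/20)*(x + (-87/47)*y)^2 + (93/470)*(y)^2 + (1 - x^2 - y^2)*((2792/5)*(x + (-21085/11168)*y)^2 + (32023/223360)*(y)^2) := by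
    simp only [psi]
    ring
  have : 0 ≤ psi x y - 1 / 20 := by
    rw [key]
    positivity
  linarith

lemma frontier_disc : frontier (ball (0 : Plane) 1) = sphere (0 : Plane) 1 :=
  frontier_ball _ one_ne_zero

lemma closure_disc : closure (ball (0 : Plane) 1) = closedBall (0 : Plane) 1 :=
  closure_ball _ one_ne_zero

lemma mem_closedBall_iff (x : Plane) : x ∈ closedBall (0 : Plane) 1 ↔ x 0 ^ 2 + x 1 ^ 2 ≤ 1 := by
  rw [← plane_norm, mem_closedBall_zero_iff]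
  constructor
  · intro h; nlinarith [norm_nonneg x]
  · intro h; nlinarith [norm_nonneg x]

lemma mem_sphere_iff (x : Plane) : x ∈ sphere (0 : Plane) 1 ↔ x 0 ^ 2 + x 1 ^ 2 = 1 := by
  rw [← plane_norm, mem_sphere_zero_iff_norm]
  constructor
  · intro h; rw [h]; norm_num
  · intro h; nlinarith [norm_nonneg x]

/-- The unit disc is a bounded domain with smooth connected boundary. -/
lemma isSmoothDomain_disc : IsSmoothDomain (ball (0 : Plane) 1) where
  isOpen := isOpen_ball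
  isConnected := (convex_ball _ _).isConnected (nonempty_ball.2 one_pos)
  isBounded := isBounded_ball
  isConnected_boundary := by
    rw [frontier_disc]
    refine isConnected_sphere ?_ _ zero_le_one
    rw [← Module.finrank_eq_rank, finrank_euclideanSpace_fin]
    norm_num
  smooth_boundary := by
    refine ⟨fun x => ‖x‖ ^ 2 - 1, (contDiff_norm_sq ℝ).sub contDiff_const, ?_, ?_, ?_⟩
    · ext x
      rw [mem_ball_zero_iff]
      change _ ↔ ‖x‖ ^ 2 - 1 < 0
      constructor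
      · intro h; nlinarith [norm_nonneg x]
      · intro h; nlinarith [norm_nonneg x]
    · rw [frontier_disc]
      ext x
      rw [mem_sphere_zero_iff_norm]
      change _ ↔ ‖x‖ ^ 2 - 1 = 0
      constructor
      · intro h; rw [h]; norm_num
      · intro h; nlinarith [norm_nonneg x]
    · intro x hx h
      have hx1 : ‖x‖ ^ 2 = 1 := by linarith
      have h1 : HasFDerivAt (fun x : Plane => ‖x‖ ^ 2 - 1) (2 • (innerSL ℝ x)) x :=
        (hasStrictFDerivAt_norm_sq x).hasFDerivAt.sub_const 1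
      rw [h1.fderiv] at h
      have h2 := congrArg (fun L : Plane →L[ℝ] ℝ => L x) h
      simp at h2
      rw [h2] at hx1
      simp at hx1

/-- The energy estimate: uniform ellipticity implies strict positivity. -/
lemma energy {A : Fin 2 → Fin 2 → Plane → ℝ} (hA : ∀ i j, ContDiff ℝ ∞ (A i j)) {lam : ℝ}
    (hlam : 0 < lam) (hell : ∀ x ∈ closedBall (0 : Plane) 1, ∀ ξ : Fin 2 → ℝ,
      lam * ∑ i, ξ i ^ 2 ≤ ∑ i, ∑ j, A i j x * ξ i * ξ j)
    {w : Plane → ℝ} (hw : ContDiff ℝ 2 w) (h0 : ∀ x ∈ sphere (0 : Plane) 1, w x = 0) :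
    lam / 4 * ∫ x in ball (0 : Plane) 1, w x ^ 2 ≤
      ∫ x in ball (0 : Plane) 1, ellOp A (fun _ => 0) w x * w x := by
  have hA1 : ∀ i j, ContDiff ℝ 1 (A i j) := fun i j => (hA i j).of_le (by norm_cast)
  have hw1 : ContDiff ℝ 1 w := hw.of_le (by norm_num)
  have hdw : ∀ j, ContDiff ℝ 1 (pd j w) := fun j => contDiff_pd hw (by norm_num) j
  set T : Fin 2 → Fin 2 → Plane → ℝ := fun i j y => A i j y * pd j w y with hT
  have hT1 : ∀ i j, ContDiff ℝ 1 (T i j) := fun i j => (hA1 i j).mul (hdw j)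
  have hTd : ∀ i j, Differentiable ℝ (T i j) := fun i j => (hT1 i j).differentiable (by norm_num)
  have hwd : Differentiable ℝ w := hw1.differentiable (by norm_num)
  have hz : ∀ i j, ∫ x in ball (0 : Plane) 1, pd i (fun y => T i j y * w y) x = 0 := by
    intro i j
    exact integral_pd ((hT1 i j).mul hw1) (fun x hx => by simp [h0 x hx]) i
  have hcont : ∀ i j, Continuous (pd i (fun y => T i j y * w y)) := fun i j =>
    continuous_pd ((hT1 i j).mul hw1) i
  have hpt : ∀ x, ellOp A (fun _ => 0) w x * w x =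
      (∑ i, ∑ j, A i j x * pd i w x * pd j w x) - ∑ i, ∑ j, pd i (fun y => T i j y * w y) x := by
    intro x
    have : ∀ i j, pd i (fun y => T i j y * w y) x =
        pd i (fun y => A i j y * pd j w y) x * w x + A i j x * pd j w x * pd i w x := by
      intro i j
      rw [pd_mul (hTd i j x) (hwd x)]
    simp only [this, ellOp, Fin.sum_univ_two]
    ring
  have hc1 : Continuous (fun x => ∑ i, ∑ j, A i j x * pd i w x * pd j w x) := by
    refine continuous_finsetSum _ fun i _ => continuous_finsetSum _ fun j _ => ?_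
    exact ((hA1 i j).continuous.mul (hdw i).continuous).mul (hdw j).continuous
  have hc2 : Continuous (fun x => ∑ i, ∑ j, pd i (fun y => T i j y * w y) x) :=
    continuous_finsetSum _ fun i _ => continuous_finsetSum _ fun j _ => hcont i j
  have hzero : ∫ x in ball (0 : Plane) 1, ∑ i, ∑ j, pd i (fun y => T i j y * w y) x = 0 := by
    rw [integral_finsetSum _ (fun i _ => ?_)]
    · refine Finset.sum_eq_zero fun i _ => ?_
      rw [integral_finsetSum _ (fun j _ => integrableOn_ball (hcont i j))]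
      exact Finset.sum_eq_zero fun j _ => hz i j
    · exact integrableOn_ball (continuous_finsetSum _ fun j _ => hcont i j)
  simp only [hpt]
  rw [integral_sub (integrableOn_ball hc1) (integrableOn_ball hc2), hzero, sub_zero]
  have hq : Continuous (fun x => lam * pd 0 w x ^ 2) := by
    have := (hdw 0).continuous
    fun_prop
  have hle : ∫ x in ball (0 : Plane) 1, lam * pd 0 w x ^ 2 ≤
      ∫ x in ball (0 : Plane) 1, ∑ i, ∑ j, A i j x * pd i w x * pd j w x := by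
    refine setIntegral_mono_on (integrableOn_ball hq) (integrableOn_ball hc1) measurableSet_ball ?_
    intro x hx
    have h1 := hell x (ball_subset_closedBall hx) (fun i => pd i w x)
    rw [Fin.sum_univ_two] at h1
    nlinarith [mul_nonneg hlam.le (sq_nonneg (pd 1 w x))]
  rw [integral_const_mul] at hle
  have hP := poincare hw h0
  nlinarith

/-- Derivatives of functions given by expressions in the two coordinates. -/
lemma pd0_fun {P Q : ℝ → ℝ → ℝ} (hd : Differentiable ℝ (fun p : Plane => P (p 0) (p 1)))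
    (h : ∀ x y, HasDerivAt (fun t => P t y) (Q x y) x) :
    pd 0 (fun p : Plane => P (p 0) (p 1)) = fun p => Q (p 0) (p 1) := by
  funext p
  have h1 := pd_line0 (hd p)
  have h2 : HasDerivAt (fun t => P t (p 1)) (pd 0 (fun p : Plane => P (p 0) (p 1)) p) (p 0) := by
    simpa using h1
  exact h2.unique (h (p 0) (p 1))

lemma pd1_fun {P Q : ℝ → ℝ → ℝ} (hd : Differentiable ℝ (fun p : Plane => P (p 0) (p 1)))
    (h : ∀ x y, HasDerivAt (fun t => P x t) (Q x y) y) :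
    pd 1 (fun p : Plane => P (p 0) (p 1)) = fun p => Q (p 0) (p 1) := by
  funext p
  have h1 := pd_line1 (hd p)
  have h2 : HasDerivAt (fun t => P (p 0) t) (pd 1 (fun p : Plane => P (p 0) (p 1)) p) (p 1) := by
    simpa using h1
  exact h2.unique (h (p 0) (p 1))

lemma contDiff_Axx : ContDiff ℝ ∞ (fun p : Plane => Axx (p 0) (p 1)) := by
  unfold Axx; fun_prop

lemma contDiff_Axy : ContDiff ℝ ∞ (fun p : Plane => Axy (p 0) (p 1)) := by
  unfold Axy; fun_prop

lemma contDiff_Ayy : ContDiff ℝ ∞ (fun p : Plane => Ayy (p 0) (p 1)) := by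
  unfold Ayy; fun_prop

lemma contDiff_Bxx : ContDiff ℝ ∞ (fun p : Plane => Bxx (p 0) (p 1)) := by
  unfold Bxx; fun_prop

lemma contDiff_Bxy : ContDiff ℝ ∞ (fun p : Plane => Bxy (p 0) (p 1)) := by
  unfold Bxy; fun_prop

lemma contDiff_Byy : ContDiff ℝ ∞ (fun p : Plane => Byy (p 0) (p 1)) := by
  unfold Byy; fun_prop

lemma contDiff_U : ContDiff ℝ ∞ (fun p : Plane => U (p 0) (p 1)) := by
  unfold U; fun_prop

lemma contDiff_V : ContDiff ℝ ∞ (fun p : Plane => V (p 0) (p 1)) := by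
  unfold V; fun_prop

lemma contDiff_psi : ContDiff ℝ ∞ (fun p : Plane => psi (p 0) (p 1)) := by
  unfold psi; fun_prop

lemma contDiff_U_x : ContDiff ℝ ∞ (fun p : Plane => U_x (p 0) (p 1)) := by
  unfold U_x; fun_prop

lemma contDiff_U_y : ContDiff ℝ ∞ (fun p : Plane => U_y (p 0) (p 1)) := by
  unfold U_y; fun_prop

lemma contDiff_V_x : ContDiff ℝ ∞ (fun p : Plane => V_x (p 0) (p 1)) := by
  unfold V_x; fun_prop

lemma contDiff_V_y : ContDiff ℝ ∞ (fun p : Plane => V_y (p 0) (p 1)) := by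
  unfold V_y; fun_prop

lemma diff_Axx : Differentiable ℝ (fun p : Plane => Axx (p 0) (p 1)) :=
  contDiff_Axx.differentiable (by simp)

lemma diff_Axy : Differentiable ℝ (fun p : Plane => Axy (p 0) (p 1)) :=
  contDiff_Axy.differentiable (by simp)

lemma diff_Ayy : Differentiable ℝ (fun p : Plane => Ayy (p 0) (p 1)) :=
  contDiff_Ayy.differentiable (by simp)

lemma diff_Bxx : Differentiable ℝ (fun p : Plane => Bxx (p 0) (p 1)) :=
  contDiff_Bxx.differentiable (by simp)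

lemma diff_Bxy : Differentiable ℝ (fun p : Plane => Bxy (p 0) (p 1)) :=
  contDiff_Bxy.differentiable (by simp)

lemma diff_Byy : Differentiable ℝ (fun p : Plane => Byy (p 0) (p 1)) :=
  contDiff_Byy.differentiable (by simp)

lemma diff_U : Differentiable ℝ (fun p : Plane => U (p 0) (p 1)) :=
  contDiff_U.differentiable (by simp)

lemma diff_V : Differentiable ℝ (fun p : Plane => V (p 0) (p 1)) :=
  contDiff_V.differentiable (by simp)

lemma diff_psi : Differentiable ℝ (fun p : Plane => psi (p 0) (p 1)) :=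
  contDiff_psi.differentiable (by simp)

lemma diff_U_x : Differentiable ℝ (fun p : Plane => U_x (p 0) (p 1)) :=
  contDiff_U_x.differentiable (by simp)

lemma diff_U_y : Differentiable ℝ (fun p : Plane => U_y (p 0) (p 1)) :=
  contDiff_U_y.differentiable (by simp)

lemma diff_V_x : Differentiable ℝ (fun p : Plane => V_x (p 0) (p 1)) :=
  contDiff_V_x.differentiable (by simp)

lemma diff_V_y : Differentiable ℝ (fun p : Plane => V_y (p 0) (p 1)) :=
  contDiff_V_y.differentiable (by simp)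

/-- The coefficient matrix of `L`. -/
noncomputable def A : Fin 2 → Fin 2 → Plane → ℝ := fun i j p =>
  if i = 0 then (if j = 0 then Axx (p 0) (p 1) else Axy (p 0) (p 1))
  else (if j = 0 then Axy (p 0) (p 1) else Ayy (p 0) (p 1))

/-- The coefficient matrix of `M`. -/
noncomputable def B : Fin 2 → Fin 2 → Plane → ℝ := fun i j p =>
  if i = 0 then (if j = 0 then Bxx (p 0) (p 1) else Bxy (p 0) (p 1))
  else (if j = 0 then Bxy (p 0) (p 1) else Byy (p 0) (p 1))

lemma pos_R {x y : ℝ} (h : x ^ 2 + y ^ 2 ≤ 1) : 0 < 4 + 6 * x * y + 4 * y ^ 2 - x ^ 2 := by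
  nlinarith [sq_nonneg (x + y), sq_nonneg (x - y), sq_nonneg (3 * x + 4 * y), sq_nonneg y, sq_nonneg x,
    sq_nonneg (2 * x + 3 * y)]

lemma pos_S {x y : ℝ} (h : x ^ 2 + y ^ 2 ≤ 1) : 0 < 4 - 6 * x * y + 4 * x ^ 2 - y ^ 2 := by
  have := pos_R (x := -y) (y := x) (by linarith)
  linarith

lemma ellOp_A_U (p : Plane) : ellOp A (fun _ => 0) (fun p => U (p 0) (p 1)) p =
    -((1 - (p 0) ^ 2 - (p 1) ^ 2) * (p 0) * psi (p 0) (p 1)) := by
  have e00 : (fun y : Plane => A 0 0 y * pd 0 (fun p : Plane => U (p 0) (p 1)) y) =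
      fun y => Axx (y 0) (y 1) * U_x (y 0) (y 1) := by
    funext y; rw [pd0_fun diff_U U_dx]; rfl
  have e01 : (fun y : Plane => A 0 1 y * pd 1 (fun p : Plane => U (p 0) (p 1)) y) =
      fun y => Axy (y 0) (y 1) * U_y (y 0) (y 1) := by
    funext y; rw [pd1_fun diff_U U_dy]; rfl
  have e10 : (fun y : Plane => A 1 0 y * pd 0 (fun p : Plane => U (p 0) (p 1)) y) =
      fun y => Axy (y 0) (y 1) * U_x (y 0) (y 1) := by
    funext y; rw [pd0_fun diff_U U_dx]; rfl
  have e11 : (fun y : Plane => A 1 1 y * pd 1 (fun p : Plane => U (p 0) (p 1)) y) =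
      fun y => Ayy (y 0) (y 1) * U_y (y 0) (y 1) := by
    funext y; rw [pd1_fun diff_U U_dy]; rfl
  simp only [ellOp, Fin.sum_univ_two, e00, e01, e10, e11]
  rw [pd_mul (diff_Axx p) (diff_U_x p), pd_mul (diff_Axy p) (diff_U_y p),
    pd_mul (diff_Axy p) (diff_U_x p), pd_mul (diff_Ayy p) (diff_U_y p),
    pd0_fun diff_Axx Axx_dx, pd0_fun diff_Axy Axy_dx, pd1_fun diff_Axy Axy_dy,
    pd1_fun diff_Ayy Ayy_dy, pd0_fun diff_U_x U_x_dx, pd1_fun diff_U_x U_x_dy,
    pd0_fun diff_U_y U_y_dx, pd1_fun diff_U_y U_y_dy]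
  simp only [Axx, Axy, Ayy, U_x, U_y, Axx_x, Axy_x, Axy_y, Ayy_y, U_x_x, U_x_y, U_y_x, U_y_y, psi]
  ring

lemma ellOp_B_V (p : Plane) : ellOp B (fun _ => 0) (fun p => V (p 0) (p 1)) p =
    (1 - (p 0) ^ 2 - (p 1) ^ 2) * (p 1) * psi (-(p 1)) (p 0) := by
  have e00 : (fun y : Plane => B 0 0 y * pd 0 (fun p : Plane => V (p 0) (p 1)) y) =
      fun y => Bxx (y 0) (y 1) * V_x (y 0) (y 1) := by
    funext y; rw [pd0_fun diff_V V_dx]; rfl
  have e01 : (fun y : Plane => B 0 1 y * pd 1 (fun p : Plane => V (p 0) (p 1)) y) =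
      fun y => Bxy (y 0) (y 1) * V_y (y 0) (y 1) := by
    funext y; rw [pd1_fun diff_V V_dy]; rfl
  have e10 : (fun y : Plane => B 1 0 y * pd 0 (fun p : Plane => V (p 0) (p 1)) y) =
      fun y => Bxy (y 0) (y 1) * V_x (y 0) (y 1) := by
    funext y; rw [pd0_fun diff_V V_dx]; rfl
  have e11 : (fun y : Plane => B 1 1 y * pd 1 (fun p : Plane => V (p 0) (p 1)) y) =
      fun y => Byy (y 0) (y 1) * V_y (y 0) (y 1) := by
    funext y; rw [pd1_fun diff_V V_dy]; rfl
  simp only [ellOp, Fin.sum_univ_two, e00, e01, e10, e11]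
  rw [pd_mul (diff_Bxx p) (diff_V_x p), pd_mul (diff_Bxy p) (diff_V_y p),
    pd_mul (diff_Bxy p) (diff_V_x p), pd_mul (diff_Byy p) (diff_V_y p),
    pd0_fun diff_Bxx Bxx_dx, pd0_fun diff_Bxy Bxy_dx, pd1_fun diff_Bxy Bxy_dy,
    pd1_fun diff_Byy Byy_dy, pd0_fun diff_V_x V_x_dx, pd1_fun diff_V_x V_x_dy,
    pd0_fun diff_V_y V_y_dx, pd1_fun diff_V_y V_y_dy]
  simp only [Bxx, Bxy, Byy, V_x, V_y, Bxx_x, Bxy_x, Bxy_y, Byy_y, V_x_x, V_x_y, V_y_x, V_y_y, psi]
  ring

lemma ell_A : ∀ x ∈ closedBall (0 : Plane) 1, ∀ ξ : Fin 2 → ℝ,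
    (1 / 10 : ℝ) * ∑ i, ξ i ^ 2 ≤ ∑ i, ∑ j, A i j x * ξ i * ξ j := by
  intro x hx ξ
  rw [mem_closedBall_iff] at hx
  have h := A_pos hx (ξ 0) (ξ 1)
  simp only [Fin.sum_univ_two]
  have e00 : A 0 0 x = Axx (x 0) (x 1) := rfl
  have e01 : A 0 1 x = Axy (x 0) (x 1) := rfl
  have e10 : A 1 0 x = Axy (x 0) (x 1) := rfl
  have e11 : A 1 1 x = Ayy (x 0) (x 1) := rfl
  rw [e00, e01, e10, e11]
  linarith

lemma ell_B : ∀ x ∈ closedBall (0 : Plane) 1, ∀ ξ : Fin 2 → ℝ,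
    (1 / 10 : ℝ) * ∑ i, ξ i ^ 2 ≤ ∑ i, ∑ j, B i j x * ξ i * ξ j := by
  intro x hx ξ
  rw [mem_closedBall_iff] at hx
  have h := A_pos (x := -(x 1)) (y := x 0) (by linarith) (ξ 1) (-(ξ 0))
  simp only [Fin.sum_univ_two]
  have e00 : B 0 0 x = Ayy (-(x 1)) (x 0) := by
    change Bxx (x 0) (x 1) = _
    simp only [Bxx, Ayy]; ring
  have e01 : B 0 1 x = -Axy (-(x 1)) (x 0) := by
    change Bxy (x 0) (x 1) = _
    simp only [Bxy, Axy]; ring
  have e10 : B 1 0 x = -Axy (-(x 1)) (x 0) := by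
    change Bxy (x 0) (x 1) = _
    simp only [Bxy, Axy]; ring
  have e11 : B 1 1 x = Axx (-(x 1)) (x 0) := by
    change Byy (x 0) (x 1) = _
    simp only [Byy, Axx]; ring
  rw [e00, e01, e10, e11]
  linarith

lemma admissible_of {A : Fin 2 → Fin 2 → Plane → ℝ} (hA : ∀ i j, ContDiff ℝ ∞ (A i j))
    (hs : ∀ i j x, A i j x = A j i x)
    (hell : ∀ x ∈ closedBall (0 : Plane) 1, ∀ ξ : Fin 2 → ℝ,
      (1 / 10 : ℝ) * ∑ i, ξ i ^ 2 ≤ ∑ i, ∑ j, A i j x * ξ i * ξ j) :
    IsAdmissibleOp (ball (0 : Plane) 1) A (fun _ => 0) where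
  smooth_A := hA
  smooth_c := contDiff_const
  symm := hs
  elliptic := ⟨1 / 10, by norm_num, by rw [closure_disc]; exact hell⟩
  positive := by
    refine ⟨(1 / 10) / 4, by norm_num, fun w hw h0 => ?_⟩
    rw [frontier_disc] at h0
    exact energy hA (by norm_num) hell hw h0

lemma admissible_A : IsAdmissibleOp (ball (0 : Plane) 1) A (fun _ => 0) := by
  refine admissible_of ?_ ?_ ell_A
  · intro i j
    fin_cases i <;> fin_cases j
    · exact contDiff_Axx
    · exact contDiff_Axy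
    · exact contDiff_Axy
    · exact contDiff_Ayy
  · intro i j x
    fin_cases i <;> fin_cases j <;> rfl

lemma admissible_B : IsAdmissibleOp (ball (0 : Plane) 1) B (fun _ => 0) := by
  refine admissible_of ?_ ?_ ell_B
  · intro i j
    fin_cases i <;> fin_cases j
    · exact contDiff_Bxx
    · exact contDiff_Bxy
    · exact contDiff_Bxy
    · exact contDiff_Byy
  · intro i j x
    fin_cases i <;> fin_cases j <;> rfl

/-- The coefficient function `a`. -/
noncomputable def afun (p : Plane) : ℝ :=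
  psi (p 0) (p 1) / (4 + 6 * p 0 * p 1 + 4 * (p 1) ^ 2 - (p 0) ^ 2)

/-- The coefficient function `b`. -/
noncomputable def bfun (p : Plane) : ℝ :=
  psi (-(p 1)) (p 0) / (4 - 6 * p 0 * p 1 + 4 * (p 0) ^ 2 - (p 1) ^ 2)

lemma smoothPos_a : SmoothPos (ball (0 : Plane) 1) afun := by
  refine ⟨⟨{p : Plane | 0 < 4 + 6 * p 0 * p 1 + 4 * (p 1) ^ 2 - (p 0) ^ 2}, ?_, ?_, ?_⟩, ?_⟩
  · exact isOpen_lt continuous_const (by fun_prop)
  · rw [closure_disc]
    intro p hp
    exact pos_R ((mem_closedBall_iff p).1 hp)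
  · refine ContDiffOn.div contDiff_psi.contDiffOn ?_ ?_
    · fun_prop
    · intro p hp
      exact ne_of_gt hp
  · rw [closure_disc]
    intro p hp
    have hp' := (mem_closedBall_iff p).1 hp
    have h1 := psi_pos hp'
    exact div_pos (by linarith) (pos_R hp')

lemma smoothPos_b : SmoothPos (ball (0 : Plane) 1) bfun := by
  refine ⟨⟨{p : Plane | 0 < 4 - 6 * p 0 * p 1 + 4 * (p 0) ^ 2 - (p 1) ^ 2}, ?_, ?_, ?_⟩, ?_⟩
  · exact isOpen_lt continuous_const (by fun_prop)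
  · rw [closure_disc]
    intro p hp
    exact pos_S ((mem_closedBall_iff p).1 hp)
  · refine ContDiffOn.div ?_ ?_ ?_
    · unfold psi; fun_prop
    · fun_prop
    · intro p hp
      exact ne_of_gt hp
  · rw [closure_disc]
    intro p hp
    have hp' := (mem_closedBall_iff p).1 hp
    have h1 := psi_pos (x := -(p 1)) (y := p 0) (by linarith)
    exact div_pos (by linarith) (pos_S hp')

lemma U_eq (x y : ℝ) : U x y = (1 - x ^ 2 - y ^ 2) * y * (4 - 6 * x * y + 4 * x ^ 2 - y ^ 2) := by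
  simp only [U]; ring

lemma V_eq (x y : ℝ) : V x y = (1 - x ^ 2 - y ^ 2) * x * (4 + 6 * x * y + 4 * y ^ 2 - x ^ 2) := by
  simp only [V]; ring

lemma solution : IsSolution (ball (0 : Plane) 1) A (fun _ => 0) B (fun _ => 0) afun bfun
    (fun p => U (p 0) (p 1)) (fun p => V (p 0) (p 1)) where
  smooth_u := contDiff_U
  smooth_v := contDiff_V
  eq_u := by
    intro p hp
    have hp' := ((mem_ball_iff p).1 hp).le
    have h := (pos_R hp').ne'
    have e : ∀ P r : ℝ, P / (4 + 6 * p 0 * p 1 + 4 * (p 1) ^ 2 - (p 0) ^ 2) *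
        (r * (4 + 6 * p 0 * p 1 + 4 * (p 1) ^ 2 - (p 0) ^ 2)) = P * r := by
      intro P r
      rw [div_mul_eq_mul_div, div_eq_iff h]
      ring
    rw [ellOp_A_U, V_eq, afun, e]
    ring
  eq_v := by
    intro p hp
    have hp' := ((mem_ball_iff p).1 hp).le
    have h := (pos_S hp').ne'
    have e : ∀ P r : ℝ, P / (4 - 6 * p 0 * p 1 + 4 * (p 0) ^ 2 - (p 1) ^ 2) *
        (r * (4 - 6 * p 0 * p 1 + 4 * (p 0) ^ 2 - (p 1) ^ 2)) = P * r := by
      intro P r
      rw [div_mul_eq_mul_div, div_eq_iff h]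
      ring
    rw [ellOp_B_V, U_eq, bfun, e]
    ring
  boundary := by
    rw [frontier_disc]
    intro p hp
    have hp' := (mem_sphere_iff p).1 hp
    have h0 : 1 - (p 0) ^ 2 - (p 1) ^ 2 = 0 := by linarith
    exact ⟨by rw [U_eq, h0]; ring, by rw [V_eq, h0]; ring⟩

/-- **Main theorem** (negative answer to Q1).  The open unit disc `D` of the plane is a bounded
domain with smooth connected boundary, and there are operators `L` (coefficients `A, c`) and
`M` (coefficients `B, d`) on `D` satisfying all the hypotheses, strictly positive smooth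
functions `a, b`, and a smooth real solution `(u, v)` of
`L u + a v = 0`, `-b u + M v = 0` in `D`, `u = v = 0` on the boundary, with neither `u` nor `v`
identically zero in `D`. -/
theorem result : IsSmoothDomain (ball (0 : E 2) 1) ∧
    ∃ (A B : Fin 2 → Fin 2 → E 2 → ℝ) (c d a b u v : E 2 → ℝ),
      IsAdmissibleOp (ball (0 : E 2) 1) A c ∧ IsAdmissibleOp (ball (0 : E 2) 1) B d ∧
      SmoothPos (ball (0 : E 2) 1) a ∧ SmoothPos (ball (0 : E 2) 1) b ∧
      IsSolution (ball (0 : E 2) 1) A c B d a b u v ∧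
      (∃ x ∈ ball (0 : E 2) 1, u x ≠ 0) ∧ (∃ x ∈ ball (0 : E 2) 1, v x ≠ 0) := by
  refine ⟨isSmoothDomain_disc, A, B, fun _ => 0, fun _ => 0, afun, bfun,
    fun p => U (p 0) (p 1), fun p => V (p 0) (p 1), admissible_A, admissible_B, smoothPos_a,
    smoothPos_b, solution, ⟨!₂[0, 1 / 2], ?_, ?_⟩, ⟨!₂[1 / 2, 0], ?_, ?_⟩⟩
  · rw [mem_ball_iff]; norm_num
  · simp only [U]; norm_num
  · rw [mem_ball_iff]; norm_num
  · simp only [V]; norm_num

end Pool.Agent.Results.MP_f60174_an.DiscCounterexample
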